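import Pool.Agent.Helper97.TI.Defs

/-!
Module SOL for MP_17e24e_ag: no socle modulo fewer than `κ` linear forms.
-/
set_option autoImplicit false
open MvPolynomial

namespace TI

section X1
variable {κ : ℕ}

private theorem SOL_coeffs {p : RR κ} (hp : p.IsHomogeneous 1) :
    ∃ c : Fin κ → ℂ, ∀ v : Fin κ → ℂ, eval v p = ∑ i, c i * v i := by
  have h : p ∈ homogeneousSubmodule (Fin κ) ℂ 1 := hp
  rw [homogeneousSubmodule_one_eq_span_X, Submodule.mem_span_range_iff_exists_fun] at h
  obtain ⟨c, hc⟩ := h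
  refine ⟨c, fun v => ?_⟩
  rw [← hc]
  simp [smul_eval]

private theorem SOL_vanish (y : ℕ → RR κ) (j : ℕ) :
    ∀ p ∈ Bm (⊥ : Submodule (RR κ) (RR κ)) y j, ∀ v : Fin κ → ℂ, (∀ t < j, eval v (y t) = 0) →
      eval v p = 0 := by
  induction j with
  | zero =>
    intro p hp v _
    rw [Bm_zero, Submodule.mem_bot] at hp
    simp [hp]
  | succ j ih =>
    intro p hp v hv
    rw [Bm_succ, Submodule.mem_sup] at hp
    obtain ⟨p1, hp1, p2, hp2, rfl⟩ := hp
    obtain ⟨q, rfl⟩ := mem_mulTop.1 hp2
    rw [map_add, ih p1 hp1 v (fun t ht => hv t (by omega)), smul_eq_mul, map_mul,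
      hv j (by omega)]
    simp

private theorem SOL_mem (y : ℕ → RR κ) (j : ℕ) :
    ∀ t < j, y t ∈ Bm (⊥ : Submodule (RR κ) (RR κ)) y j := by
  induction j with
  | zero => intro t ht; omega
  | succ j ih =>
    intro t ht
    rw [Bm_succ]
    rcases Nat.lt_succ_iff_lt_or_eq.1 ht with h | h
    · exact Submodule.mem_sup_left (ih t h)
    · subst h
      exact Submodule.mem_sup_right (mem_mulTop.2 ⟨1, by simp⟩)

/-- SOL: linear forms: no socle in `R/(y_0..y_{j-1})` for `j < κ` -/
theorem no_soc_lin (y : ℕ → RR κ) (hy : ∀ j, (y j).IsHomogeneous 1) (j : ℕ) (hj : j < κ) :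
    ¬ ∃ s : RR κ, IsSoc (Bm (⊥ : Submodule (RR κ) (RR κ)) y j) s := by
  classical
  rintro ⟨s, hs, hsi⟩
  apply hs
  choose c hc using fun t => SOL_coeffs (hy t)
  -- the linear map
  let L : (Fin κ → ℂ) →ₗ[ℂ] (Fin j → ℂ) :=
    LinearMap.pi fun t => ∑ i, c t i • (LinearMap.proj i : (Fin κ → ℂ) →ₗ[ℂ] ℂ)
  have hL : ∀ v (t : Fin j), L v t = eval v (y t) := by
    intro v t
    simp [L, hc]
  obtain ⟨g', hg'⟩ := L.rangeRestrict.exists_rightInverse_of_surjective L.range_rangeRestrict
  obtain ⟨g, hg⟩ := LinearMap.exists_extend g'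
  have hLg : ∀ v, L (g (L v)) = L v := by
    intro v
    have h1 : g (L v) = g' (L.rangeRestrict v) := by
      have := LinearMap.congr_fun hg (L.rangeRestrict v)
      simpa using this
    have h2 := LinearMap.congr_fun hg' (L.rangeRestrict v)
    have h3 := congrArg Subtype.val h2
    rw [h1]
    simpa using h3
  -- matrix of g
  have hgm : ∀ (u : Fin j → ℂ) (i : Fin κ), g u i = ∑ t, u t * g (Pi.single t 1) i := by
    intro u i
    conv_lhs => rw [LinearMap.pi_apply_eq_sum_univ g u]
    rw [Finset.sum_apply]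
    apply Finset.sum_congr rfl
    intro t _
    rw [Pi.smul_apply, smul_eq_mul]
    have : (fun s => if t = s then (1:ℂ) else 0) = Pi.single t 1 := by
      funext s
      simp [Pi.single_apply, eq_comm]
    rw [this]
  -- the projection polynomials
  let Pr : Fin κ → RR κ := fun i => X i - ∑ t : Fin j, C (g (Pi.single t 1) i) * y t
  have hPr : ∀ v i, eval v (Pr i) = v i - g (L v) i := by
    intro v i
    rw [hgm]
    simp only [Pr, map_sub, eval_X, map_sum, map_mul, eval_C]
    congr 1
    apply Finset.sum_congr rfl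
    intro t _
    rw [hL, mul_comm]
  have hW : ∀ v, ∀ t < j, eval (fun i => eval v (Pr i)) (y t) = 0 := by
    intro v t ht
    have h := hL (fun i => eval v (Pr i)) ⟨t, ht⟩
    rw [← h]
    have h2 : (fun i => eval v (Pr i)) = v - g (L v) := by
      ext i; rw [hPr]; rfl
    rw [h2, map_sub, hLg]; simp
  have hev : ∀ (p : RR κ) v, eval v (aeval Pr p) = eval (fun i => eval v (Pr i)) p := by
    intro p v
    rw [← coe_aeval_eq_eval, ← coe_aeval_eq_eval]
    simp only [RingHom.coe_coe]
    rw [← comp_aeval_apply]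
  -- p - p(Pr) in I
  have hI : ∀ p : RR κ, p - aeval Pr p ∈ (Bm (⊥ : Submodule (RR κ) (RR κ)) y j : Ideal (RR κ)) := by
    intro p
    rw [← Ideal.Quotient.eq]
    have : ((Ideal.Quotient.mkₐ ℂ (Bm (⊥ : Submodule (RR κ) (RR κ)) y j : Ideal (RR κ))).comp
        (aeval Pr)) = Ideal.Quotient.mkₐ ℂ (Bm (⊥ : Submodule (RR κ) (RR κ)) y j : Ideal (RR κ)) := by
      apply algHom_ext
      intro i
      rw [AlgHom.comp_apply, aeval_X]
      simp only [Ideal.Quotient.mkₐ_eq_mk]
      rw [Ideal.Quotient.eq]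
      have : Pr i - X i = - ∑ t : Fin j, C (g (Pi.single t 1) i) * y t := by
        simp [Pr]
      rw [this]
      apply neg_mem
      apply Ideal.sum_mem
      intro t _
      exact Ideal.mul_mem_left _ _ (SOL_mem y j t t.2)
    have h2 := congrArg (fun f => f p) this
    exact h2.symm
  -- the kernel is nonzero
  have hker : ∃ w, L w = 0 ∧ w ≠ 0 := by
    have : ¬ Function.Injective L := by
      intro hinj
      have := LinearMap.finrank_le_finrank_of_injective hinj
      simp at this
      omega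
    rw [← LinearMap.ker_eq_bot] at this
    obtain ⟨w, hw, hw0⟩ := (Submodule.ne_bot_iff _).1 this
    exact ⟨w, hw, hw0⟩
  obtain ⟨w, hw, hw0⟩ := hker
  obtain ⟨i₀, hi₀⟩ : ∃ i, w i ≠ 0 := by
    by_contra h
    push Not at h
    exact hw0 (funext h)
  have hPri : Pr i₀ ≠ 0 := by
    intro h
    have := hPr w i₀
    rw [h, hw] at this
    simp at this
    exact hi₀ this.symm
  have hprod : Pr i₀ * aeval Pr s = 0 := by
    apply MvPolynomial.funext
    intro v
    have h1 := SOL_vanish y j _ (hsi i₀) (fun i => eval v (Pr i)) (hW v)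
    rw [smul_eq_mul, map_mul, eval_X] at h1
    rw [map_mul, hev, map_zero]
    exact h1
  have hq : aeval Pr s = 0 := (mul_eq_zero.1 hprod).resolve_left hPri
  have := hI s
  rwa [hq, sub_zero] at this

end X1

end TI
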