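import Pool.Agent.Helper97.TI.Defs

/-!
Module X1M for MP_17e24e_ag: matrix representation, injectivity and finiteness.
-/
set_option autoImplicit false
open MvPolynomial

namespace TI

section X1
variable {κ : ℕ}

/-- X1M -/
theorem exists_mat {F : Fin κ → RR κ} {N : ℕ} (e : Fin N → RR κ)
    (he : Function.Bijective (fun c : Fin N → RR κ => ∑ j, phi F (c j) * e j)) :
    ∃ T : RR κ →+* Matrix (Fin N) (Fin N) (RR κ), ∀ c, T (phi F c) = Matrix.scalar (Fin N) c := by
  classical
  have hex : ∀ (a : RR κ) (j : Fin N), ∃ c : Fin N → RR κ, ∑ i, phi F (c i) * e i = e j * a :=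
    fun a j => he.2 (e j * a)
  choose t ht using hex
  have huniq : ∀ c c' : Fin N → RR κ,
      ∑ i, phi F (c i) * e i = ∑ i, phi F (c' i) * e i → c = c' := fun c c' h => he.1 h
  -- the matrix
  let M : RR κ → Matrix (Fin N) (Fin N) (RR κ) := fun a => Matrix.of fun i j => t a j i
  have hM : ∀ a j, ∑ i, phi F (M a i j) * e i = e j * a := fun a j => ht a j
  have hext : ∀ (a : RR κ) (A : Matrix (Fin N) (Fin N) (RR κ)),
      (∀ j, ∑ i, phi F (A i j) * e i = e j * a) → M a = A := by
    intro a A hA
    ext1 i j
    have h := huniq (fun i => M a i j) (fun i => A i j) (by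
      rw [hM a j, hA j])
    exact congrFun h i
  have hone : M 1 = 1 := by
    apply hext
    intro j
    rw [Finset.sum_eq_single j]
    · simp
    · intro i _ hij
      rw [Matrix.one_apply_ne hij]; simp
    · intro h; exact absurd (Finset.mem_univ j) h
  have hzero : M 0 = 0 := by
    apply hext
    intro j
    simp
  have hadd : ∀ a b, M (a + b) = M a + M b := by
    intro a b
    apply hext
    intro j
    simp only [Matrix.add_apply, map_add, add_mul, Finset.sum_add_distrib]
    rw [hM a j, hM b j]; ring
  have hmul : ∀ a b, M (a * b) = M a * M b := by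
    intro a b
    apply hext
    intro j
    simp only [Matrix.mul_apply, map_sum, map_mul, Finset.sum_mul]
    rw [Finset.sum_comm]
    calc ∑ k, ∑ i, phi F (M a i k) * phi F (M b k j) * e i
        = ∑ k, phi F (M b k j) * (e k * a) := by
          apply Finset.sum_congr rfl
          intro k _
          rw [← hM a k, Finset.mul_sum]
          apply Finset.sum_congr rfl
          intro i _
          ring
      _ = (∑ k, phi F (M b k j) * e k) * a := by
          rw [Finset.sum_mul]
          apply Finset.sum_congr rfl
          intro k _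
          ring
      _ = e j * (a * b) := by
          rw [hM b j]; ring
  refine ⟨{ toFun := M, map_one' := hone, map_mul' := hmul, map_zero' := hzero,
            map_add' := hadd }, ?_⟩
  intro c
  change M (phi F c) = _
  apply hext
  intro j
  rw [Finset.sum_eq_single j]
  · simp [Matrix.scalar_apply, mul_comm]
  · intro i _ hij
    rw [Matrix.scalar_apply, Matrix.diagonal_apply_ne _ hij]; simp
  · intro h; exact absurd (Finset.mem_univ j) h

end X1

section P5
variable {κ : ℕ}

/-- FIN -/
theorem phi_inj_int {d : ℕ} {F : Fin κ → RR κ} (hF : NonDeg d F)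
    (hfree : ∃ (N : ℕ) (e : Fin N → RR κ), 0 < N ∧
      Function.Bijective (fun c : Fin N → RR κ => ∑ j, phi F (c j) * e j)) :
    Function.Injective (phi F) ∧ (phi F).toRingHom.Finite := by
  classical
  obtain ⟨N, e, hN, he⟩ := hfree
  constructor
  · intro c c' hcc
    let j0 : Fin N := ⟨0, hN⟩
    have h : (Pi.single j0 c : Fin N → RR κ) = Pi.single j0 c' := by
      apply he.1
      apply Finset.sum_congr rfl
      intro j _
      by_cases hj : j = j0
      · subst hj
        simp only [Pi.single_eq_same]
        rw [hcc]
      · rw [Pi.single_eq_of_ne hj, Pi.single_eq_of_ne hj]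
    have := congrFun h j0
    simpa using this
  · change @Module.Finite (RR κ) (RR κ) _ _ (phi F).toRingHom.toAlgebra.toModule
    refine @Module.Finite.of_fg_top (RR κ) (RR κ) _ _ (phi F).toRingHom.toAlgebra.toModule ?_
    refine ⟨Finset.univ.image e, ?_⟩
    refine (@eq_top_iff (@Submodule (RR κ) (RR κ) _ _ (phi F).toRingHom.toAlgebra.toModule)
      _ _ _).2 ?_
    intro x _
    obtain ⟨c, hc⟩ := he.2 x
    rw [← hc]
    refine @Submodule.sum_mem (RR κ) (RR κ) _ _ _ (phi F).toRingHom.toAlgebra.toModule _ _ _ ?_
    intro j _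
    refine @Submodule.smul_mem (RR κ) (RR κ) _ _ (phi F).toRingHom.toAlgebra.toModule _ (e j)
      (c j) ?_
    refine @Submodule.subset_span (RR κ) (RR κ) _ _ (phi F).toRingHom.toAlgebra.toModule _ _ ?_
    simp

end P5

end TI
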